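import Pool.Agent.H66.IQ.TE

/-!
# Row EXP (MP_0f8dca_lc): the value decreases only if the answer to a question changes
-/

set_option autoImplicit false

namespace Pool.Agent.H50.IQ

open Finset Pool.Agent.H6.NB Pool.Agent.H70.OQ Pool.Agent.H66.IQ

lemma exp_ic_nonneg (p : Prop) : 0 ≤ ic p := by
  unfold ic
  by_cases h : p
  · simp [h]
  · simp [h]

lemma exp_ic_one {p : Prop} (h : p) : ic p = 1 := by
  unfold ic
  simp [h]

/-- the weighted number of changed answers -/
noncomputable def expD {k : ℕ} (Ψ : Finset (Machine k × List Bool)) (μ : Machine k × List Bool → ℝ)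
    (O O' : List Bool → Bool) : ℝ :=
  ∑ c ∈ Ψ, μ c * ic (¬ (c.2 ∈ c.1.lang O ↔ c.2 ∈ c.1.lang O'))

lemma expD_mono {k : ℕ} {Ψ Ψ' : Finset (Machine k × List Bool)} {μ μ' : Machine k × List Bool → ℝ}
    (h0 : ∀ c, 0 ≤ μ' c) (hs : Ψ ⊆ Ψ') (hm : ∀ c, μ c ≤ μ' c) (O O' : List Bool → Bool) :
    expD Ψ μ O O' ≤ expD Ψ' μ' O O' := by
  unfold expD
  calc _ ≤ ∑ c ∈ Ψ, μ' c * ic (¬ (c.2 ∈ c.1.lang O ↔ c.2 ∈ c.1.lang O')) :=
        sum_le_sum fun c _ => mul_le_mul_of_nonneg_right (hm c) (exp_ic_nonneg _)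
    _ ≤ _ := sum_le_sum_of_subset_of_nonneg hs fun c _ _ => mul_nonneg (h0 c) (exp_ic_nonneg _)

/-- the questions of an examination -/
lemma exp_exam {k : ℕ} (m : ℕ) : ∀ T : Exam k, T.Small m →
    ∃ Ψ : Finset (Machine k × List Bool), Ψ.card + 1 ≤ 2 ^ T.depth ∧
    (∀ c ∈ Ψ, c.2.length ^ c.1.c + c.1.c ≤ m) ∧
    ∀ O : List Bool → Bool, ∃ μ : Machine k × List Bool → ℝ, (∀ c, 0 ≤ μ c) ∧
      (∀ c, c ∉ Ψ → μ c = 0) ∧ ∑ c ∈ Ψ, μ c ≤ T.depth ∧ ∀ O' : List Bool → Bool,
        (if T.eval O = true then (1 : ℝ) else 0) - (if T.eval O' = true then (1 : ℝ) else 0) ≤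
          expD Ψ μ O O' := by
  classical
  intro T
  induction T with
  | leaf b =>
    intro _
    refine ⟨∅, by simp [Exam.depth], by simp, fun O => ⟨fun _ => 0, fun _ => le_rfl,
      fun _ _ => rfl, by simp [Exam.depth], fun O' => ?_⟩⟩
    have h1 : (Exam.leaf b : Exam k).eval O = (Exam.leaf b : Exam k).eval O' := rfl
    rw [h1, sub_self]
    unfold expD
    simp
  | node M x l r ihl ihr =>
    intro hS
    obtain ⟨hx, hSl, hSr⟩ := hS
    obtain ⟨Ψl, hcl, hsl, hml⟩ := ihl hSl
    obtain ⟨Ψr, hcr, hsr, hmr⟩ := ihr hSr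
    refine ⟨insert (M, x) (Ψl ∪ Ψr), ?_, ?_, ?_⟩
    · have h1 := card_insert_le (M, x) (Ψl ∪ Ψr)
      have h2 := card_union_le Ψl Ψr
      have h3 : 2 ^ l.depth ≤ 2 ^ max l.depth r.depth :=
        Nat.pow_le_pow_right (by norm_num) (le_max_left _ _)
      have h4 : 2 ^ r.depth ≤ 2 ^ max l.depth r.depth :=
        Nat.pow_le_pow_right (by norm_num) (le_max_right _ _)
      have h5 : 2 ^ (Exam.node M x l r).depth = 2 * 2 ^ max l.depth r.depth := by
        change 2 ^ (max l.depth r.depth + 1) = _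
        rw [pow_succ]; ring
      rw [h5]
      omega
    · intro c hc
      rcases mem_insert.mp hc with h | h
      · rw [h]; exact hx
      · rcases mem_union.mp h with h | h
        · exact hsl c h
        · exact hsr c h
    · -- the common argument for both answers
      have key : ∀ (U : Exam k) (Ψ : Finset (Machine k × List Bool)),
          Ψ ⊆ insert (M, x) (Ψl ∪ Ψr) → U.depth ≤ max l.depth r.depth →
          ∀ O : List Bool → Bool, ((Exam.node M x l r).eval O = U.eval O) →
          (∃ μ : Machine k × List Bool → ℝ, (∀ c, 0 ≤ μ c) ∧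
            (∀ c, c ∉ Ψ → μ c = 0) ∧ ∑ c ∈ Ψ, μ c ≤ U.depth ∧ ∀ O' : List Bool → Bool,
            (if U.eval O = true then (1 : ℝ) else 0) - (if U.eval O' = true then (1 : ℝ) else 0) ≤
              expD Ψ μ O O') →
          (∀ O' : List Bool → Bool, (x ∈ M.lang O ↔ x ∈ M.lang O') →
            (Exam.node M x l r).eval O' = U.eval O') →
          ∃ μ : Machine k × List Bool → ℝ, (∀ c, 0 ≤ μ c) ∧
            (∀ c, c ∉ insert (M, x) (Ψl ∪ Ψr) → μ c = 0) ∧
            ∑ c ∈ insert (M, x) (Ψl ∪ Ψr), μ c ≤ (Exam.node M x l r).depth ∧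
            ∀ O' : List Bool → Bool,
              (if (Exam.node M x l r).eval O = true then (1 : ℝ) else 0) -
                (if (Exam.node M x l r).eval O' = true then (1 : ℝ) else 0) ≤
                expD (insert (M, x) (Ψl ∪ Ψr)) μ O O' := by
        intro U Ψ hΨ hd O hO hμ hO2
        obtain ⟨μ, h0, hz, hsum, hdiff⟩ := hμ
        refine ⟨fun c => μ c + if c = (M, x) then 1 else 0, ?_, ?_, ?_, ?_⟩
        · intro c
          have := h0 c
          dsimp only
          split_ifs <;> linarith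
        · intro c hc
          have h1 : c ∉ Ψ := fun h => hc (hΨ h)
          have h2 : c ≠ (M, x) := fun h => hc (h ▸ mem_insert_self _ _)
          dsimp only
          rw [hz c h1, if_neg h2, add_zero]
        · rw [sum_add_distrib, Finset.sum_ite_eq', if_pos (mem_insert_self _ _)]
          have h1 : ∑ c ∈ insert (M, x) (Ψl ∪ Ψr), μ c = ∑ c ∈ Ψ, μ c :=
            (sum_subset hΨ fun c _ hc => hz c hc).symm
          rw [h1]
          have h2 : (U.depth : ℝ) ≤ ((max l.depth r.depth : ℕ) : ℝ) := by exact_mod_cast hd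
          have h3 : (((Exam.node M x l r).depth : ℕ) : ℝ) = ((max l.depth r.depth : ℕ) : ℝ) + 1 := by
            change ((max l.depth r.depth + 1 : ℕ) : ℝ) = _
            push_cast; ring
          rw [h3]
          linarith
        · intro O'
          have h0' : ∀ c, 0 ≤ (fun c => μ c + if c = (M, x) then (1 : ℝ) else 0) c := by
            intro c
            have := h0 c
            dsimp only
            split_ifs <;> linarith
          by_cases h1 : x ∈ M.lang O ↔ x ∈ M.lang O'
          · rw [hO, hO2 O' h1]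
            refine (hdiff O').trans (expD_mono h0' hΨ (fun c => ?_) O O')
            split_ifs <;> linarith
          · have h2 : (1 : ℝ) ≤ expD (insert (M, x) (Ψl ∪ Ψr))
                (fun c => μ c + if c = (M, x) then (1 : ℝ) else 0) O O' := by
              unfold expD
              have h3 := single_le_sum (f := fun c : Machine k × List Bool =>
                (μ c + if c = (M, x) then (1 : ℝ) else 0) *
                  ic (¬ (c.2 ∈ c.1.lang O ↔ c.2 ∈ c.1.lang O')))
                (s := insert (M, x) (Ψl ∪ Ψr))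
                (fun c _ => mul_nonneg (h0' c) (exp_ic_nonneg _)) (mem_insert_self (M, x) _)
              refine le_trans ?_ h3
              dsimp only
              rw [if_pos rfl, exp_ic_one h1]
              have := h0 (M, x)
              linarith
            refine le_trans ?_ h2
            split_ifs <;> norm_num
      intro O
      by_cases hxO : x ∈ M.lang O
      · refine key r Ψr (fun c hc => mem_insert_of_mem (mem_union_right _ hc)) (le_max_right _ _)
          O ?_ (hmr O) ?_
        · simp only [Exam.eval, if_pos hxO]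
        · intro O' h
          simp only [Exam.eval, if_pos (h.mp hxO)]
      · refine key l Ψl (fun c hc => mem_insert_of_mem (mem_union_left _ hc)) (le_max_left _ _)
          O ?_ (hml O) ?_
        · simp only [Exam.eval, if_neg hxO]
        · intro O' h
          simp only [Exam.eval, if_neg fun h2 => hxO (h.mpr h2)]

/-- the questions of a protocol -/
lemma exp_prot {k : ℕ} (m : ℕ) : ∀ G : Prot k, G.Tests m →
    ∃ Ψ : Finset (Machine k × List Bool), Ψ.card ≤ 2 ^ G.moves * 2 ^ m ∧
    (∀ c ∈ Ψ, c.2.length ^ c.1.c + c.1.c ≤ m) ∧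
    ∀ O : List Bool → Bool, ∃ μ : Machine k × List Bool → ℝ, (∀ c, 0 ≤ μ c) ∧
      (∀ c, c ∉ Ψ → μ c = 0) ∧ ∑ c ∈ Ψ, μ c ≤ m ∧ ∀ O' : List Bool → Bool,
        G.val O - G.val O' ≤ expD Ψ μ O O' := by
  classical
  intro G
  induction G with
  | test T =>
    intro hT
    obtain ⟨hd, hS⟩ := hT
    obtain ⟨Ψ, hc, hs, hm⟩ := exp_exam m T hS
    refine ⟨Ψ, ?_, hs, fun O => ?_⟩
    · have h1 : 2 ^ T.depth ≤ 2 ^ m := Nat.pow_le_pow_right (by norm_num) hd
      simp only [Prot.moves, pow_zero, one_mul]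
      omega
    · obtain ⟨μ, h0, hz, hsum, hdiff⟩ := hm O
      refine ⟨μ, h0, hz, hsum.trans (by exact_mod_cast hd), fun O' => ?_⟩
      exact hdiff O'
  | coin l r ihl ihr =>
    intro hT
    obtain ⟨Ψl, hcl, hsl, hml⟩ := ihl hT.1
    obtain ⟨Ψr, hcr, hsr, hmr⟩ := ihr hT.2
    refine ⟨Ψl ∪ Ψr, ?_, ?_, fun O => ?_⟩
    · have h2 := card_union_le Ψl Ψr
      have h3 : 2 ^ l.moves * 2 ^ m ≤ 2 ^ max l.moves r.moves * 2 ^ m :=
        Nat.mul_le_mul_right _ (Nat.pow_le_pow_right (by norm_num) (le_max_left _ _))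
      have h4 : 2 ^ r.moves * 2 ^ m ≤ 2 ^ max l.moves r.moves * 2 ^ m :=
        Nat.mul_le_mul_right _ (Nat.pow_le_pow_right (by norm_num) (le_max_right _ _))
      have h5 : 2 ^ (Prot.coin l r).moves * 2 ^ m = 2 * (2 ^ max l.moves r.moves * 2 ^ m) := by
        change 2 ^ (max l.moves r.moves + 1) * 2 ^ m = _
        rw [pow_succ]; ring
      rw [h5]
      omega
    · intro c hc
      rcases mem_union.mp hc with h | h
      · exact hsl c h
      · exact hsr c h
    · obtain ⟨μl, h0l, hzl, hsuml, hdl⟩ := hml O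
      obtain ⟨μr, h0r, hzr, hsumr, hdr⟩ := hmr O
      have hsl2 : ∑ c ∈ Ψl ∪ Ψr, μl c = ∑ c ∈ Ψl, μl c :=
        (sum_subset subset_union_left fun c _ hc => hzl c hc).symm
      have hsr2 : ∑ c ∈ Ψl ∪ Ψr, μr c = ∑ c ∈ Ψr, μr c :=
        (sum_subset subset_union_right fun c _ hc => hzr c hc).symm
      refine ⟨fun c => (μl c + μr c) / 2, ?_, ?_, ?_, fun O' => ?_⟩
      · intro c
        have := h0l c
        have := h0r c
        dsimp only
        linarith
      · intro c hc
        rw [mem_union, not_or] at hc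
        dsimp only
        rw [hzl c hc.1, hzr c hc.2]; norm_num
      · rw [← sum_div, sum_add_distrib, hsl2, hsr2]
        linarith
      · have h1 := (hdl O').trans (expD_mono (Ψ' := Ψl ∪ Ψr) h0l subset_union_left
          (fun c => le_rfl) O O')
        have h2 := (hdr O').trans (expD_mono (Ψ' := Ψl ∪ Ψr) h0r subset_union_right
          (fun c => le_rfl) O O')
        have h3 : expD (Ψl ∪ Ψr) (fun c => (μl c + μr c) / 2) O O' =
            (expD (Ψl ∪ Ψr) μl O O' + expD (Ψl ∪ Ψr) μr O O') / 2 := by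
          unfold expD
          rw [← sum_add_distrib, sum_div]
          exact sum_congr rfl fun c _ => by ring
        rw [h3]
        simp only [Prot.val]
        linarith
  | say l r ihl ihr =>
    intro hT
    obtain ⟨Ψl, hcl, hsl, hml⟩ := ihl hT.1
    obtain ⟨Ψr, hcr, hsr, hmr⟩ := ihr hT.2
    refine ⟨Ψl ∪ Ψr, ?_, ?_, fun O => ?_⟩
    · have h2 := card_union_le Ψl Ψr
      have h3 : 2 ^ l.moves * 2 ^ m ≤ 2 ^ max l.moves r.moves * 2 ^ m :=
        Nat.mul_le_mul_right _ (Nat.pow_le_pow_right (by norm_num) (le_max_left _ _))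
      have h4 : 2 ^ r.moves * 2 ^ m ≤ 2 ^ max l.moves r.moves * 2 ^ m :=
        Nat.mul_le_mul_right _ (Nat.pow_le_pow_right (by norm_num) (le_max_right _ _))
      have h5 : 2 ^ (Prot.say l r).moves * 2 ^ m = 2 * (2 ^ max l.moves r.moves * 2 ^ m) := by
        change 2 ^ (max l.moves r.moves + 1) * 2 ^ m = _
        rw [pow_succ]; ring
      rw [h5]
      omega
    · intro c hc
      rcases mem_union.mp hc with h | h
      · exact hsl c h
      · exact hsr c h
    · rcases le_total (l.val O) (r.val O) with hlr | hlr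
      · obtain ⟨μr, h0r, hzr, hsumr, hdr⟩ := hmr O
        have hsr2 : ∑ c ∈ Ψl ∪ Ψr, μr c = ∑ c ∈ Ψr, μr c :=
          (sum_subset subset_union_right fun c _ hc => hzr c hc).symm
        refine ⟨μr, h0r, ?_, by rw [hsr2]; exact hsumr, fun O' => ?_⟩
        · intro c hc
          rw [mem_union, not_or] at hc
          exact hzr c hc.2
        · have h2 := (hdr O').trans (expD_mono (Ψ' := Ψl ∪ Ψr) h0r subset_union_right
            (fun c => le_rfl) O O')
          have h3 := le_max_right (l.val O') (r.val O')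
          simp only [Prot.val]
          rw [max_eq_right hlr]
          linarith
      · obtain ⟨μl, h0l, hzl, hsuml, hdl⟩ := hml O
        have hsl2 : ∑ c ∈ Ψl ∪ Ψr, μl c = ∑ c ∈ Ψl, μl c :=
          (sum_subset subset_union_left fun c _ hc => hzl c hc).symm
        refine ⟨μl, h0l, ?_, by rw [hsl2]; exact hsuml, fun O' => ?_⟩
        · intro c hc
          rw [mem_union, not_or] at hc
          exact hzl c hc.1
        · have h2 := (hdl O').trans (expD_mono (Ψ' := Ψl ∪ Ψr) h0l subset_union_left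
            (fun c => le_rfl) O O')
          have h3 := le_max_left (l.val O') (r.val O')
          simp only [Prot.val]
          rw [max_eq_left hlr]
          linarith

theorem pf_EXP : T_EXP := by
  intro k m G hG
  obtain ⟨Ψ, hc, hs, hm⟩ := exp_prot m G hG.2
  refine ⟨Ψ, ?_, hs, fun O => ?_⟩
  · have h1 : 2 ^ G.moves ≤ 2 ^ m := Nat.pow_le_pow_right (by norm_num) hG.1
    calc Ψ.card ≤ 2 ^ G.moves * 2 ^ m := hc
      _ ≤ 2 ^ m * 2 ^ m := Nat.mul_le_mul_right _ h1
      _ = 2 ^ (2 * m) := by rw [← pow_add]; congr 1; ring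
  · obtain ⟨μ, h0, -, hsum, hdiff⟩ := hm O
    exact ⟨μ, h0, hsum, fun O' => hdiff O'⟩

end Pool.Agent.H50.IQ
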