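import Pool.Agent.H66.IQ.TE
import Pool.Agent.H78.XQ.Targets

/-!
# Row FI5 (MP_0f8dca_lc): the assembly of the stages
-/

set_option autoImplicit false

namespace Pool.Agent.H50.IQ

open Finset Pool.Agent.H6.NB Pool.Agent.H70.OQ Pool.Agent.H70.EH Pool.Agent.H70.EI
open Pool.Agent.H78.XQ Pool.Agent.H66.IQ
open Pool.Agent.H66.IP (Local ins sp dm Good Ext Fool scl)
open Pool.Agent.H75.OM (BPos)

/-- the requirements -/
private def fi5R (G : ℕ → (k : ℕ) × (List Bool → Prot k)) (i : ℕ) (O : List Bool → Bool) : Prop :=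
  ∃ n ≥ (Nat.unpair i).2,
    ¬ ((G (Nat.unpair i).1).2 (List.replicate n false)).Proves O
      (List.replicate n false ∉ plang (G (Nat.unpair i).1).1 O)

theorem pf_FI5 (hFUS : Pool.Agent.H66.IP.T_FUS) (hPST : T_PST) (hSPF : Pool.Agent.H66.IP.T_SPF)
    (hGLC : Pool.Agent.H66.IP.T_GLC) (hEXA : Pool.Agent.H78.XQ.T_EXA) : T_FI5 := by
  intro V G hG
  obtain ⟨hins, hscl, -, -, -, -⟩ := hSPF V
  have hle : ∀ p, scl V p ≤ (sp V p).length := by
    intro p
    obtain ⟨h1, h2, -⟩ := hscl p
    have h3 : scl V p ≤ scl V p ^ 3 := Nat.le_self_pow (by norm_num) _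
    omega
  have hpos : ∀ p, 0 < (sp V p).length := by
    intro p
    have h1 := (hscl p).1
    have h2 := hle p
    omega
  have hloc : ∀ (p : ℕ × List Bool) (O O' : List Bool → Bool),
      (∀ w, w.length ≤ (sp V p).length ∨ BPos (dm V) p w → O w = O' w) →
      Good V p O → Good V p O' := by
    intro p O O' h hO
    refine hGLC V p O O' ?_ hO
    intro w hw
    apply h
    rcases hw with hw | hw
    · left
      have := hle p
      omega
    · right
      exact hw
  have hstage : ∀ (k M : ℕ) (O : List Bool → Bool),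
      (∀ p, (sp V p).length ≤ M → Good V p O) → ∃ (M' : ℕ) (O' : List Bool → Bool), M < M' ∧
      (∀ w, (w.length ≤ M ∨ ∃ p, (sp V p).length ≤ M ∧ BPos (dm V) p w) → O' w = O w) ∧
      (∀ p, (sp V p).length ≤ M' → Good V p O') ∧
      ∀ O'', (∀ w : List Bool, w.length ≤ M' → O'' w = O' w) → fi5R G k O'' := by
    intro k M O hO
    obtain ⟨M', O', hE, hR⟩ := hPST V (G (Nat.unpair k).1).1
      (fun n => (G (Nat.unpair k).1).2 (List.replicate n false))
      (by
        obtain ⟨n₀, h⟩ := hG (Nat.unpair k).1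
        refine ⟨n₀, fun n hn => ?_⟩
        have h2 := h (List.replicate n false) (by rw [List.length_replicate]; exact hn)
        rw [List.length_replicate] at h2
        exact h2) (Nat.unpair k).2 M O hO
    exact ⟨M', O', hE.lt, hE.eq, hE.good, fun O'' hO'' => hR O'' hO''⟩
  obtain ⟨O, hgood, hR⟩ := hFUS (ℕ × List Bool) (fun p => (sp V p).length)
    (fun p w => BPos (dm V) p w) (fun p O => Good V p O) (fi5R G) hpos hloc hstage
  refine ⟨O, ?_, ?_⟩
  · intro i x
    have hg := hgood (i, x)
    unfold Good OkB at hg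
    have hfit := hg.2
    have he := hEXA O (sp V (i, x)) _ hfit
    rw [hins (i, x)] at he
    change (exact (ins (V i).c i x)).prob O = _ at he
    constructor
    · intro hacc
      rw [he]
      simp [hacc]
    · intro hacc
      rw [he]
      simp [hacc]
  · intro j N
    have h := hR (Nat.pair j N)
    unfold fi5R at h
    rw [Nat.unpair_pair] at h
    exact h

end Pool.Agent.H50.IQ
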